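import Mathlib

/-! Complex numbers with a finite orbit under the automorphisms of `ℂ` over a subfield are algebraic. -/

set_option autoImplicit false

namespace Pool.Agent.L5helper13.KM

open MvPolynomial

/-- translation of one element of a transcendence basis -/
theorem orbit_aut {k : Type} [Field k] [Algebra k ℂ] {ι : Type} (v : ι → ℂ)
    (hv : IsTranscendenceBasis k v) (i0 : ι) (c : k) :
    ∃ τ : ℂ ≃ₐ[k] ℂ, τ (v i0) = v i0 + algebraMap k ℂ c := by
  classical
  let f : k → MvPolynomial ι k →ₐ[k] MvPolynomial ι k := fun d =>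
    aeval (fun i => if i = i0 then X i0 + C d else X i)
  have hf : ∀ d i, f d (X i) = if i = i0 then X i0 + C d else X i := fun d i => by
    simp only [f]
    rw [aeval_X]
  have hfC : ∀ d r, f d (C r) = C r := fun d r => by
    simp only [f]
    rw [← algebraMap_eq, AlgHom.commutes]
  have hcomp : ∀ d, (f d).comp (f (-d)) = AlgHom.id k _ := by
    intro d
    apply MvPolynomial.algHom_ext
    intro i
    rw [AlgHom.comp_apply, hf, AlgHom.id_apply]
    by_cases hi : i = i0
    · subst hi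
      rw [if_pos rfl, map_add, hf, hfC, if_pos rfl, add_assoc, ← C_add, add_neg_cancel, C_0, add_zero]
    · rw [if_neg hi, hf, if_neg hi]
  let e1 : MvPolynomial ι k ≃ₐ[k] MvPolynomial ι k := AlgEquiv.ofAlgHom (f c) (f (-c)) (hcomp c)
    (by have := hcomp (-c); rwa [neg_neg] at this)
  let σ : Algebra.adjoin k (Set.range v) ≃ₐ[k] Algebra.adjoin k (Set.range v) :=
    hv.1.aevalEquiv.symm.trans (e1.trans hv.1.aevalEquiv)
  letI := IsAlgClosed.isAlgClosure_of_transcendence_basis v hv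
  let τ0 : ℂ ≃+* ℂ := IsAlgClosure.equivOfEquiv ℂ ℂ σ.toRingEquiv
  have hτ0 : ∀ a : Algebra.adjoin k (Set.range v), τ0 (algebraMap _ ℂ a) = algebraMap _ ℂ (σ a) :=
    fun a => IsAlgClosure.equivOfEquiv_algebraMap ℂ ℂ σ.toRingEquiv a
  let τ : ℂ ≃ₐ[k] ℂ := AlgEquiv.ofRingEquiv (f := τ0) (fun r => by
    have h1 : algebraMap k ℂ r = algebraMap (Algebra.adjoin k (Set.range v)) ℂ (algebraMap k _ r) := rfl
    rw [h1, hτ0, σ.commutes])
  refine ⟨τ, ?_⟩
  have h2 : v i0 = algebraMap (Algebra.adjoin k (Set.range v)) ℂ (hv.1.aevalEquiv (X i0)) := by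
    rw [hv.1.algebraMap_aevalEquiv, aeval_X]
  have h3 : τ (v i0) = τ0 (v i0) := rfl
  rw [h3]
  conv_lhs => rw [h2]
  rw [hτ0]
  have h4 : σ (hv.1.aevalEquiv (X i0)) = hv.1.aevalEquiv (X i0 + C c) := by
    have h5 : σ (hv.1.aevalEquiv (X i0)) = hv.1.aevalEquiv (e1 (hv.1.aevalEquiv.symm (hv.1.aevalEquiv (X i0)))) := rfl
    rw [h5, AlgEquiv.symm_apply_apply]
    have h6 : e1 (X i0) = f c (X i0) := rfl
    rw [h6, hf, if_pos rfl]
  rw [h4, hv.1.algebraMap_aevalEquiv, map_add, aeval_X, aeval_C]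

theorem alg_of_orbit (k : Subfield ℂ) (z : ℂ)
    (h : (Set.range fun τ : ℂ ≃ₐ[k] ℂ => τ z).Finite) : IsAlgebraic k z := by
  by_contra hz
  have hz' : Transcendental k z := hz
  have h1 : AlgebraicIndepOn k id ({z} : Set ℂ) := by
    have := (algebraicIndependent_unique_type_iff (R := k) (x := fun i : ({z} : Set ℂ) => (i : ℂ)))
    apply this.2
    exact hz'
  obtain ⟨t, ht, hb⟩ := exists_isTranscendenceBasis_superset h1
  have hzt : z ∈ t := ht rfl
  have key : ∀ n : ℕ, z + n ∈ Set.range fun τ : ℂ ≃ₐ[k] ℂ => τ z := by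
    intro n
    obtain ⟨τ, hτ⟩ := orbit_aut (fun i : t => (i : ℂ)) hb ⟨z, hzt⟩ (n : k)
    refine ⟨τ, ?_⟩
    simp only at hτ ⊢
    rw [hτ, map_natCast]
  have hinj : Function.Injective fun n : ℕ => z + (n : ℂ) := by
    intro a b hab
    have : (a : ℂ) = b := add_left_cancel hab
    exact_mod_cast this
  exact (Set.infinite_of_injective_forall_mem hinj key) h

end Pool.Agent.L5helper13.KM
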