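import Pool.Agent.L5helper66.TD.Defs2
import Pool.Agent.L5helper3.NFExists

/-!
# Existence of the tetrahedra of the elliptic family (MP_6c15a0_gt)
-/

set_option autoImplicit false

open scoped TensorProduct RealInnerProductSpace

namespace Pool.Agent.L5helper99.NK

open Pool.Agent.L5helper66.TD

theorem tri {a b d : ℝ} (h1 : 0 < a + b + d) (h2 : 0 < a + b - d) (h3 : 0 < a - b + d)
    (h4 : 0 < -a + b + d) : (a ^ 2 + b ^ 2 - d ^ 2) ^ 2 < 4 * a ^ 2 * b ^ 2 := by
  have h : 0 < (a + b + d) * (a + b - d) * ((a - b + d) * (-a + b + d)) := by positivity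
  nlinarith [h]

/-- NK2 -/
theorem G_exists (x y z : ℝ) (hx : 1 < x) (hx2 : x < 4 / 3) (hy0 : 0 < y) (hz0 : 0 < z)
    (hz : z ^ 2 = 9 - 2 * x - 3 * x ^ 2) (hy : 2 * y ^ 2 = 3 * (3 - x - z))
    (hcm : 0 < cm (1 + x + y) (3 - x + y) (2 * x) (2 * y) (4 - y - z) (z - y))
    (h1 : 1 < z ∧ z < 2 ∧ y < 1 ∧ x - 1 < y) :
    ∃ T : Fin 4 → E3, AffineIndependent ℝ T ∧
      HasEdges T (1 + x + y) (3 - x + y) (2 * x) (2 * y) (4 - y - z) (z - y) := by
  obtain ⟨hz1, hz2, hy1, hxy⟩ := h1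
  exact Pool.Agent.L5helper3.NF.exists_tetra _ _ _ _ _ _ (by linarith) (by linarith) (by linarith)
    (by linarith) (by linarith) (by linarith)
    (tri (by linarith) (by linarith) (by linarith) (by linarith)) hcm

end Pool.Agent.L5helper99.NK
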