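import Pool.Agent.L5helper13.TQ.Defs

set_option autoImplicit false

namespace Pool.Agent.L5helper13.TQ

/-- TQ4 -/
theorem abstract_main (k : Type) [Field k] [CharZero k] (V : Type) [AddCommGroup V] [Module k V]
    (T : Type) [CommGroup T] (l : T → V →ₗ[k] V) (B : T → V →ₗ[k] V →ₗ[k] V)
    (hsym : ∀ t x y, B t x y = B t y x) (h1 : ∀ x, l 1 x = x)
    (hl : ∀ s t x, l (s * t) x = l s (l t x))
    (h2 : ∀ s t x, B (s * t) x x = l s (B t x x) + B s (l t x) (l t x))
    (h3 : ∀ s t x, B s (l t x) (B t x x) = 0)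
    (h4 : ∀ s t x, B s (B t x x) (B t x x) = 0)
    (E : (T → V) →ₗ[k] V) (E1 : ∀ (A : V →ₗ[k] V) (f : T → V), E (fun t => A (f t)) = A (E f))
    (E2 : ∀ v, E (fun _ => v) = v)
    (E3 : ∀ x y s, E (fun t => l (t * s)⁻¹ (B (t * s) x y)) = E (fun t => l t⁻¹ (B t x y)))
    (E4 : ∀ x y, E (fun t => l t (B t⁻¹ x y)) = E (fun t => l t⁻¹ (B t x y))) :
    ∃ M : V →ₗ[k] V →ₗ[k] V, (∀ x y, M x y = M y x) ∧ (∀ x, M x (M x x) = 0) ∧
      (∀ x, M (M x x) (M x x) = 0) ∧
      ∀ s x, (l s x + B s x x) + M (l s x + B s x x) (l s x + B s x x) = l s (x + M x x) := by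
  let M : V →ₗ[k] V →ₗ[k] V := LinearMap.mk₂ k (fun x y => E (fun t => l t⁻¹ (B t x y)))
    (fun x x' y => by
      rw [← map_add]
      congr 1
      funext t
      simp only [map_add, LinearMap.add_apply, Pi.add_apply])
    (fun c x y => by
      rw [← map_smul]
      congr 1
      funext t
      simp only [map_smul, LinearMap.smul_apply, Pi.smul_apply])
    (fun x y y' => by
      rw [← map_add]
      congr 1
      funext t
      simp only [map_add, Pi.add_apply])
    (fun c x y => by
      rw [← map_smul]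
      congr 1
      funext t
      simp only [map_smul, Pi.smul_apply])
  have hM : ∀ x y, M x y = E (fun t => l t⁻¹ (B t x y)) := fun x y => rfl
  have hE0 : ∀ f : T → V, (∀ t, f t = 0) → E f = 0 := fun f hf => by
    rw [show f = 0 from funext hf, map_zero]
  have hs : ∀ x y, M x y = M y x := by
    intro x y
    rw [hM, hM]
    congr 1
    funext t
    rw [hsym]
  have hinv : ∀ t x, l t⁻¹ (l t x) = x := fun t x => by rw [← hl, inv_mul_cancel, h1]
  have hinv' : ∀ t x, l t (l t⁻¹ x) = x := fun t x => by rw [← hl, mul_inv_cancel, h1]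
  have hA : ∀ s x, M (l s x) (l s x) = l s (M x x) - B s x x := by
    intro s x
    have h5 : ∀ t, l t⁻¹ (B t (l s x) (l s x)) = l s (l (t * s)⁻¹ (B (t * s) x x)) - B s x x := by
      intro t
      have h6 : B t (l s x) (l s x) = B (t * s) x x - l t (B s x x) := by
        rw [h2 t s x]; abel
      rw [h6, map_sub, hinv, ← hl s]
      congr 3
      rw [mul_inv_rev, mul_inv_cancel_left]
    rw [hM, show (fun t => l t⁻¹ (B t (l s x) (l s x))) =
      (fun t => l s (l (t * s)⁻¹ (B (t * s) x x))) - (fun _ => B s x x) from funext h5, map_sub, E2,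
      E1 (l s) (fun t => l (t * s)⁻¹ (B (t * s) x x)), E3, hM]
  have hC : ∀ s x, M (l s x) (B s x x) = 0 := fun s x => by
    rw [hM]
    exact hE0 _ fun t => by rw [h3, map_zero]
  have hD : ∀ s x, M (B s x x) (B s x x) = 0 := fun s x => by
    rw [hM]
    exact hE0 _ fun t => by rw [h4, map_zero]
  have hB1 : ∀ x, B 1 x x = 0 := by
    intro x
    have h5 := h2 1 1 x
    rw [mul_one, h1, h1] at h5
    exact left_eq_add.1 h5
  have hN : ∀ s y, M y (l s (B s⁻¹ y y)) = 0 := by
    intro s y
    have h5 := hC s (l s⁻¹ y)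
    rw [hinv'] at h5
    have h6 := h2 s s⁻¹ y
    rw [mul_inv_cancel, hB1] at h6
    have h7 : B s (l s⁻¹ y) (l s⁻¹ y) = -l s (B s⁻¹ y y) := by
      rw [eq_neg_iff_add_eq_zero, add_comm]
      exact h6.symm
    rw [h7, map_neg, neg_eq_zero] at h5
    exact h5
  have hF : ∀ x, M x (M x x) = 0 := by
    intro x
    rw [hM x x, ← E4, ← E1 (M x) (fun t => l t (B t⁻¹ x x))]
    exact hE0 _ fun t => hN t x
  have hP : ∀ x y, M y (M x x) + (2 : k) • M x (M x y) = 0 := by
    intro x y
    have h5 := hF (x + y)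
    have h6 := hF (x - y)
    have h7 := hF y
    have h8 : (2 : k) • (M y (M x x) + (2 : k) • M x (M x y)) = 0 := by
      have h9 : M y x = M x y := hs y x
      simp only [map_add, map_sub, LinearMap.add_apply, LinearMap.sub_apply] at h5 h6
      simp only [h9] at h5 h6
      linear_combination (norm := module) h5 - h6 - (2 : k) • h7
    exact (smul_eq_zero.1 h8).resolve_left two_ne_zero
  refine ⟨M, hs, hF, fun x => ?_, fun s x => ?_⟩
  · have h5 := hP x (M x x)
    rw [hF, map_zero, smul_zero, add_zero] at h5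
    exact h5
  · have h5 : M (B s x x) (l s x) = 0 := by rw [hs]; exact hC s x
    simp only [map_add, LinearMap.add_apply]
    rw [hA, hC, hD, h5]
    abel

end Pool.Agent.L5helper13.TQ
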